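import Mathlib
import Pool.Agent.T6.H7.QS.Fin
import Pool.Agent.T6.H7.QS.Reg
import Pool.Agent.T6.H7.QS.Base
import Pool.Agent.T6.H7.QS.Rho
import Pool.Agent.T6.H7.QS.RhoC
import Pool.Agent.T6.H7.QS.Pol
import Pool.Agent.T6.H7.QS.ShU
import Pool.Agent.T6.H7.QS.ShV
import Pool.Agent.T6.H7.QS.Near
import Pool.Agent.T6.H7.QS.Loc
import Pool.Agent.T6.H7.QS.Area
import Pool.Agent.T6.H7.QS.Stab
import Pool.Agent.T6.H7.QS.Close7
import Pool.Agent.T6.H7.QS.Br
import Pool.Agent.T6.H7.QS.Sim
import Pool.Agent.T6.H7.QS.Uniq7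
import Pool.Agent.T6.H7.QS.Upper
import Pool.Agent.T6.H7.QS.Lower
import Pool.Agent.T6.H7.QS.Hrep
import Pool.Agent.T6.H7.QS.Ray
import Pool.Agent.T6.H7.QS.HF
import Pool.Agent.T6.H7.QS.Rays
import Pool.Agent.T6.H7.QS.Ar0
import Pool.Agent.T6.H7.QS.Form
import Pool.Agent.T6.H7.QS.BisF
import Pool.Agent.T6.H7.QS.Ineq
import Pool.Agent.T6.H7.QS.Nde
import Pool.Agent.T6.H7.QS.Sym

namespace Pool.Agent.Results.MP_79dd7e_co.NearRegular

open MeasureTheory Set
open scoped Real

/-- The Euclidean plane. -/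
abbrev Plane := EuclideanSpace ℝ (Fin 2)

/-- Rotation of a vector by a right angle. -/
noncomputable def rot (u : Plane) : Plane := !₂[-u 1, u 0]

/-- The line through `P` with direction `u`. -/
def line (P u : Plane) : Set Plane := {x | ∃ s : ℝ, x = P + s • u}

/-- The closed quadrant with apex `P` spanned by the perpendicular vectors `u` and `rot u`. -/
def quad (P u : Plane) : Set Plane := {x | ∃ a b : ℝ, 0 ≤ a ∧ 0 ≤ b ∧ x = P + a • u + b • rot u}

/-- `q` is a quadrisection of `R`: an unordered pair of perpendicular lines meeting at an interior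
point `P` of `R`, such that each of the four closed quadrants they bound (they are
`quad P u`, `quad P (rot u)`, `quad P (rot (rot u))`, `quad P (rot (rot (rot u)))`) meets `R` in
area `|R| / 4`. -/
def IsQuadrisection (R : Set Plane) (q : Set (Set Plane)) : Prop :=
  ∃ P u : Plane, P ∈ interior R ∧ u ≠ 0 ∧ q = {line P u, line P (rot u)} ∧
    ∀ k : ℕ, volume (R ∩ quad P (rot^[k] u)) = volume R / 4

/-- `R` is a convex `m`-gon: the convex hull of finitely many points, with exactly `m` vertices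
(extreme points) and nonempty interior. -/
def IsGon (m : ℕ) (R : Set Plane) : Prop :=
  (∃ V : Set Plane, V.Finite ∧ R = convexHull ℝ V) ∧ (R.extremePoints ℝ).ncard = m ∧
    (interior R).Nonempty

/-- The number `q(R)` of quadrisections of `R`, possibly infinite. -/
noncomputable def numQuad (R : Set Plane) : ℕ∞ := {q | IsQuadrisection R q}.encard

/-- The vertices `w_0, ..., w_{2n}` of the regular `(2n+1)`-gon `P_n`. -/
noncomputable def w (n : ℕ) (k : Fin (2 * n + 1)) : Plane :=
  !₂[Real.cos (2 * π * (k : ℕ) / (2 * n + 1)), Real.sin (2 * π * (k : ℕ) / (2 * n + 1))]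

/-- `R` is `ε`-close to `P_n`: after applying some similarity `x ↦ c • U x + b` (`c > 0` and `U` a
linear isometry) to `R`, its vertices can be labelled `v_0, ..., v_{2n}` with `|v_k - w_k| < ε` for
all `k`. -/
def IsClose (n : ℕ) (ε : ℝ) (R : Set Plane) : Prop :=
  ∃ (c : ℝ) (U : Plane ≃ₗᵢ[ℝ] Plane) (b : Plane) (v : Fin (2 * n + 1) → Plane), 0 < c ∧
    ((fun x : Plane => c • U x + b) '' R).extremePoints ℝ = range v ∧
    ∀ k, dist (v k) (w n k) < ε

open Pool.Agent.T6.H7.QS in
/-- Q2 holds for every `n ≥ 2`: all convex `(2n+1)`-gons which are sufficiently close to the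
regular one have exactly `2n+1` quadrisections. -/
theorem result (n : ℕ) (hn : 2 ≤ n) :
    ∃ ε : ℝ, 0 < ε ∧ ∀ R : Set Plane, IsGon (2 * n + 1) R → IsClose n ε R →
      numQuad R = ((2 * n + 1 : ℕ) : ℕ∞) := by
  have hRho := rhoM
  have hRhoC := rhoC hRho
  have hPol := pol hRho hRhoC
  have hShU := shU hRho hRhoC
  have hShV := shV hRho hRhoC
  have hNear := near hRho
  have hLoc := loc hRho hRhoC hPol hShU hShV hNear
  have hArea := area
  have hStab := stab hArea
  have hUpper := upper hLoc hStab br uniq7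
  have hLower := lower hArea
  have hHrep := hrep
  have hRay := ray hRho hHrep
  have hHF := hF
  have hRays := rays hRay hHF hHrep
  have hAr0 := ar0 hRho hRhoC hPol hRay hHrep
  have hForm := form hShU hShV hRays hAr0
  have hBisF := bisF hForm hAr0 hHF
  have hIneq := ineq hHF
  have hSym := sym hHrep
  have hC := BaseM.baseC hForm hBisF hIneq hHF
  have hB := BaseM.baseB hForm hBisF hHF hRays nde
  obtain ⟨ε, h0, H⟩ := FinM.final sim
    (RegM.main hHrep hSym uniq7 close7 hUpper hLower hC hB) (2 * n + 1) (by omega) ⟨n, rfl⟩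
  refine ⟨ε, h0, fun R hR hc => ?_⟩
  obtain ⟨c, U, b, v, h1, h2, h3⟩ := hc
  refine H R hR ⟨c, U, b, v, h1, h2, fun k => ?_⟩
  have e := h3 k
  have e1 : w n k = u (2 * π * (k : ℕ) / ((2 * n + 1 : ℕ) : ℝ)) := by
    unfold w u
    push_cast
    rfl
  rw [e1] at e
  exact e

end Pool.Agent.Results.MP_79dd7e_co.NearRegular
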